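import Pool.Agent.Work.MP_671ba1_h57.Family

/-!
# MP_671ba1_gt: no bounded family catches the hypersurfaces of all complete intersections

A multidegree is a finite list `δ` of natural numbers; `X_δ` denotes a smooth complete
intersection surface of multidegree `δ` in `P^(n+2)`, `n = δ.length`.  Its total Chern class
is `chern δ = (1+x)^(n+3) / ∏ (1 + d x)` (a power series in the hyperplane class `x`), so that
`K = canon δ · x`, `c₁² = c1sq δ`, `c₂ = c2 δ` (all defined in
`Pool.Agent.Work.MP_671ba1_h57.Chern`).  For an equivalence relation on multidegrees which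
preserves the canonical coefficient `canon` where it is positive (for instance the
diffeomorphism of `X_δ` and `X_δ'`, by Seiberg-Witten theory) there is no assignment of at most
`N` classes to each triple `(b⁺, b⁻, ε)` such that for every complete intersection threefold
and every multiple of its hyperplane class the hypersurfaces of all large degrees are caught.
-/

namespace Pool.Agent.Results.MP_671ba1_gt.NoBoundedFamily

open Pool.Agent.Work.MP_671ba1_h57

/-- `b⁺` of `X_δ`: `2 + b⁺ + b⁻ = c₂` and `b⁺ - b⁻ = (c₁² - 2 c₂)/3`. -/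
noncomputable def bplus (δ : List ℕ) : ℚ := (c2 δ - 2 + (c1sq δ - 2 * c2 δ) / 3) / 2

/-- `b⁻` of `X_δ`. -/
noncomputable def bminus (δ : List ℕ) : ℚ := (c2 δ - 2 - (c1sq δ - 2 * c2 δ) / 3) / 2

/-- The intersection form of `X_δ` is even: the canonical coefficient is an even integer. -/
def EvenForm (δ : List ℕ) : Prop := ∃ m : ℤ, canon δ = 2 * m

/-- The coincidences behind the theorem: for every `N` there are `N` polarised complete
intersection threefolds `(d i, a i)` with `a i` pairwise different such that for every `k ≥ 1`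
the hypersurfaces of degree `k` all have the same `(b⁺, b⁻, ε)` (and `ε = 0`), while their
canonical coefficients are `a i * (α + k)`. -/
theorem coincidences (N : ℕ) : ∃ (α : ℕ) (a : Fin N → ℕ) (d : Fin N → List ℕ),
    Function.Injective a ∧ (∀ i, 0 < a i) ∧ (∀ i, ∀ t ∈ d i, 2 ≤ t) ∧
    ∀ k, (∀ i, canon (a i * k :: d i) = a i * (α + k) ∧ EvenForm (a i * k :: d i)) ∧
      ∀ i j, bplus (a i * k :: d i) = bplus (a j * k :: d j) ∧
        bminus (a i * k :: d i) = bminus (a j * k :: d j) := by
  obtain ⟨α, c, a, d, hinj, hpos, heven, hge, h⟩ := exists_family N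
  refine ⟨α, a, d, hinj, hpos, hge, fun k => ⟨fun i => ⟨(h i k).1, ?_⟩, fun i j => ?_⟩⟩
  · obtain ⟨b, hb⟩ := heven i
    refine ⟨b * (α + k), ?_⟩
    rw [(h i k).1, hb]
    push_cast
    ring
  · obtain ⟨-, h1, h2⟩ := h i k
    obtain ⟨-, h3, h4⟩ := h j k
    rw [bplus, bplus, bminus, bminus, h1, h2, h3, h4]
    exact ⟨rfl, rfl⟩

theorem result (N : ℕ) (R : Setoid (List ℕ))
    (hR : ∀ δ δ' : List ℕ, R δ δ' → 0 < canon δ → 0 < canon δ' → canon δ = canon δ')
    (F : ℚ → ℚ → Prop → Set (Quotient R)) (hF : ∀ x y e, (F x y e).encard ≤ N) :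
    ∃ (a : ℕ) (d : List ℕ), 0 < a ∧ (∀ t ∈ d, 2 ≤ t) ∧ ∀ K : ℕ, ∃ k : ℕ, K ≤ k ∧
      Quotient.mk R (a * k :: d) ∉
        F (bplus (a * k :: d)) (bminus (a * k :: d)) (EvenForm (a * k :: d)) := by
  obtain ⟨α, a, d, hinj, hpos, hge, h⟩ := coincidences (N + 1)
  -- for every `k ≥ 1` some hypersurface of degree `k` is missed
  have hmiss : ∀ k : ℕ, 1 ≤ k → ∃ i, Quotient.mk R (a i * k :: d i) ∉
      F (bplus (a i * k :: d i)) (bminus (a i * k :: d i)) (EvenForm (a i * k :: d i)) := by
    intro k hk
    by_contra hcon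
    push Not at hcon
    have hpc : ∀ i, 0 < canon (a i * k :: d i) := by
      intro i
      rw [((h k).1 i).1]
      have h1 : (0 : ℚ) < a i := by exact_mod_cast hpos i
      have h2 : (1 : ℚ) ≤ k := by exact_mod_cast hk
      have h3 : (0 : ℚ) ≤ α := by positivity
      positivity
    have hinj' : Function.Injective fun i : Fin (N + 1) => Quotient.mk R (a i * k :: d i) := by
      intro i j hij
      have hr : R (a i * k :: d i) (a j * k :: d j) := Quotient.exact hij
      have he := hR _ _ hr (hpc i) (hpc j)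
      rw [((h k).1 i).1, ((h k).1 j).1] at he
      have h2 : (0 : ℚ) < α + k := by
        have : (1 : ℚ) ≤ k := by exact_mod_cast hk
        positivity
      have h3 : (a i : ℚ) = a j := mul_right_cancel₀ h2.ne' he
      exact hinj (by exact_mod_cast h3)
    have hsub : Set.range (fun i : Fin (N + 1) => Quotient.mk R (a i * k :: d i)) ⊆
        F (bplus (a 0 * k :: d 0)) (bminus (a 0 * k :: d 0)) (EvenForm (a 0 * k :: d 0)) := by
      rintro _ ⟨i, rfl⟩
      have h1 := hcon i
      rw [((h k).2 i 0).1, ((h k).2 i 0).2] at h1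
      have h2 : EvenForm (a i * k :: d i) = EvenForm (a 0 * k :: d 0) :=
        propext ⟨fun _ => ((h k).1 0).2, fun _ => ((h k).1 i).2⟩
      rw [h2] at h1
      exact h1
    have hcard : ((N + 1 : ℕ) : ℕ∞) ≤ N := by
      calc ((N + 1 : ℕ) : ℕ∞)
          = (Set.range fun i : Fin (N + 1) => Quotient.mk R (a i * k :: d i)).encard := by
            rw [← Set.image_univ, hinj'.encard_image, Set.encard_univ]
            simp
        _ ≤ _ := Set.encard_le_encard hsub
        _ ≤ N := hF _ _ _
    have : N + 1 ≤ N := by exact_mod_cast hcard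
    omega
  by_contra hcon
  push Not at hcon
  choose K hK using fun i => hcon (a i) (d i) (hpos i) (hge i)
  obtain ⟨i, hi⟩ := hmiss (1 + Finset.univ.sup K) (by omega)
  exact hi (hK i _ (le_trans (Finset.le_sup (Finset.mem_univ i)) (by omega)))

end Pool.Agent.Results.MP_671ba1_gt.NoBoundedFamily
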