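import Pool.Agent.Work.MP_671ba1_h54.Numbers

/-!
# MP_671ba1_gt: stabilization fails on one 6-manifold, relative to published theorems

`T : Threefold` is a smooth hypersurface of multidegree `(2, 2, 2, 2)` in `(P^1)^4`, a Calabi-Yau
threefold, with its complex structure.  `hyp M k` is the set of the Donaldson hypersurfaces of degree
`k` of the symplectic manifold `M`; the structure `Published` lists the published theorems which are
used.  The definitions are in `Pool.Agent.Work.MP_671ba1_h15.Defs` and
`Pool.Agent.Work.MP_671ba1_h54.Defs`.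
-/

open CategoryTheory Pool.Agent.Work.MP_671ba1_h15 Pool.Agent.Work.MP_671ba1_h54
open scoped Manifold ContDiff

namespace Pool.Agent.Results.MP_671ba1_gt.OneManifold

/-- The published theorems which are used.  `hyp M k` stands for the set of the Donaldson
hypersurfaces of `M` of degree `k`. -/
structure Published (hyp : Hyp) where
  /-- Bertini, Lefschetz: there are smooth hypersurfaces of multidegree `(2, 2, 2, 2)` in `(P^1)^4`, and
  they are simply connected. -/
  threefold : Nonempty Threefold
  /-- The restriction to a complex submanifold of a positive combination of the Fubini-Study forms is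
  an integral symplectic form. -/
  forms : ∀ (T : Threefold) (h : Fin 4 → ℕ), Pos h → ∃ w : T.Sf, IsRestr T h w
  /-- Donaldson 1996, Auroux 1997: for large `k` the Donaldson hypersurfaces of a projective threefold
  are diffeomorphic to the smooth members of the linear system. -/
  hypersurfaces : ∀ (T : Threefold) (h : Fin 4 → ℕ), Pos h → ∀ w : T.Sf, IsRestr T h w →
    ∃ K, ∀ k, K ≤ k → ∀ Y ∈ hyp w.toSym6 k, IsSurf Y (k • h)
  /-- Freedman 1982: surfaces of the class considered here with the same Chern numbers and canonical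
  classes of the same parity are homeomorphic. -/
  freedman : ∀ (Y Z : Man 4) (h l : Fin 4 → ℕ), Pos h → Pos l → IsSurf Y h → IsSurf Z l →
    c1sq h = c1sq l → c2 h = c2 l → (Even (content h) ↔ Even (content l)) → Homeo Y Z
  /-- the set of the Seiberg-Witten basic classes, for the orientation of negative signature (the
  surfaces considered here have negative signature and `b⁺ ≥ 3`) -/
  basic : ∀ Y : Man 4, Set (Coh Y)
  /-- Seiberg-Witten 1994: diffeomorphisms preserve the basic classes. -/
  basic_natural : ∀ (Y Z : Man 4) (φ : Dif Y Z) (c : Coh Z), c ∈ basic Z → pull φ c ∈ basic Y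
  /-- Witten 1994, Lefschetz: the canonical class of the surface is the restriction of the divisor
  class `h`, hence `r x` with `r` the greatest common divisor of the entries of `h` and `x` primitive,
  that is `x : H_2(Y) → ℤ` is onto; it is ample, and the basic classes are `± r x`. -/
  basic_surf : ∀ (Y : Man 4) (h : Fin 4 → ℕ), Pos h → IsSurf Y h →
    ∃ x : Coh Y, Function.Surjective x ∧
      basic Y = {(content h : ℤ) • x, -((content h : ℤ) • x)}

variable {hyp : Hyp}

/-- one half of the invariance of the divisibility -/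
theorem dvd_of_diffeo (P : Published hyp) {Y Z : Man 4} {r s : ℤ} {x : Coh Y} {z : Coh Z}
    (hx : Function.Surjective x) (hY : P.basic Y = {r • x, -(r • x)})
    (hZ : P.basic Z = {s • z, -(s • z)}) (φ : Dif Y Z) : s ∣ r := by
  obtain ⟨h, hh⟩ := hx 1
  have h1 := P.basic_natural Y Z φ (s • z) (by rw [hZ]; exact Set.mem_insert _ _)
  rw [hY, Set.mem_insert_iff, Set.mem_singleton_iff] at h1
  rcases h1 with h1 | h1
  · have h2 := LinearMap.congr_fun h1 h
    simp only [pull, LinearMap.comp_apply, LinearMap.smul_apply, smul_eq_mul, hh, mul_one] at h2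
    exact ⟨_, h2.symm⟩
  · have h2 := LinearMap.congr_fun h1 h
    simp only [pull, LinearMap.comp_apply, LinearMap.smul_apply, LinearMap.neg_apply, smul_eq_mul, hh,
      mul_one] at h2
    exact (dvd_neg.1 ⟨_, h2.symm⟩)

/-- the divisibility of the canonical class is a diffeomorphism invariant -/
theorem content_eq (P : Published hyp) {Y Z : Man 4} {h l : Fin 4 → ℕ} (hh : Pos h)
    (hl : Pos l) (hY : IsSurf Y h) (hZ : IsSurf Z l) (hd : Diffeo Y Z) :
    content h = content l := by
  obtain ⟨φ⟩ := hd
  obtain ⟨x, hx, hbx⟩ := P.basic_surf Y h hh hY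
  obtain ⟨z, hz, hbz⟩ := P.basic_surf Z l hl hZ
  have h1 : (content l : ℤ) ∣ content h := dvd_of_diffeo P hx hbx hbz φ
  have h2 : (content h : ℤ) ∣ content l := dvd_of_diffeo P hz hbz hbx φ.symm
  exact Nat.dvd_antisymm (Int.natCast_dvd_natCast.1 h2) (Int.natCast_dvd_natCast.1 h1)

section Forms

/-- the determinant of two vectors -/
noncomputable def det2 (s a : V 2) : ℂ := s 0 * a 1 - s 1 * a 0

/-- the square of the norm of a vector -/
noncomputable def nsq (s : V 2) : ℝ := Complex.normSq (s 0) + Complex.normSq (s 1)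

theorem nsq_pos {s : V 2} (hs : s ≠ 0) : 0 < nsq s := by
  have h0 := Complex.normSq_nonneg (s 0)
  have h1 := Complex.normSq_nonneg (s 1)
  have h2 : nsq s ≠ 0 := by
    intro h
    have e0 : s 0 = 0 := Complex.normSq_eq_zero.1 (by rw [nsq] at h; linarith)
    have e1 : s 1 = 0 := Complex.normSq_eq_zero.1 (by rw [nsq] at h; linarith)
    apply hs
    funext i
    fin_cases i
    · exact e0
    · exact e1
  exact lt_of_le_of_ne (add_nonneg h0 h1) (Ne.symm h2)

theorem fs_eq (s a b : V 2) :
    fs s a b = (starRingEnd ℂ) (det2 s a) * det2 s b / ((nsq s ^ 2 : ℝ) : ℂ) := by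
  have h : star s ⬝ᵥ s = ((nsq s : ℝ) : ℂ) := by
    simp only [dotProduct, Fin.sum_univ_two, Pi.star_apply, nsq]
    push_cast
    rw [Complex.normSq_eq_conj_mul_self, Complex.normSq_eq_conj_mul_self]
    rfl
  rw [fs, Complex.ofReal_pow, ← h]
  congr 1
  simp only [dotProduct, Fin.sum_univ_two, Pi.star_apply, det2, map_sub, map_mul, RCLike.star_def]
  ring

theorem det2_I (s a : V 2) (c : ℂ) : det2 s (Complex.I • a + c • s) = Complex.I * det2 s a := by
  simp only [det2, Pi.add_apply, Pi.smul_apply, smul_eq_mul]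
  ring

theorem fs_algebra (s a b : V 2) (c d : ℂ) :
    fs s (Complex.I • a + c • s) (Complex.I • b + d • s) = fs s a b := by
  rw [fs_eq, fs_eq, det2_I, det2_I, map_mul, Complex.conj_I]
  congr 1
  linear_combination -(starRingEnd ℂ) (det2 s a) * det2 s b * Complex.I_mul_I

theorem fs_im (s a : V 2) (c : ℂ) :
    (fs s a (Complex.I • a + c • s)).im = Complex.normSq (det2 s a) / nsq s ^ 2 := by
  have e : fs s a (Complex.I • a + c • s) =
      Complex.I * ((Complex.normSq (det2 s a) / nsq s ^ 2 : ℝ) : ℂ) := by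
    rw [fs_eq, det2_I, Complex.ofReal_div, Complex.normSq_eq_conj_mul_self]
    ring
  rw [e, Complex.I_mul_im, Complex.ofReal_re]

theorem det2_ne (s a : V 2) (hs : s ≠ 0) (ha : ∀ e : ℂ, a ≠ e • s) : det2 s a ≠ 0 := by
  intro h
  rw [det2] at h
  by_cases h0 : s 0 = 0
  · have h1 : s 1 ≠ 0 := by
      intro h1
      apply hs
      funext i
      fin_cases i
      · exact h0
      · exact h1
    have h2 : a 0 = 0 := by
      rw [h0, zero_mul, zero_sub, neg_eq_zero] at h
      exact (mul_eq_zero.1 h).resolve_left h1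
    apply ha (a 1 / s 1)
    funext i
    fin_cases i
    · show a 0 = a 1 / s 1 * s 0
      rw [h0, h2, mul_zero]
    · show a 1 = a 1 / s 1 * s 1
      rw [div_mul_cancel₀ _ h1]
  · apply ha (a 0 / s 0)
    funext i
    fin_cases i
    · show a 0 = a 0 / s 0 * s 0
      rw [div_mul_cancel₀ _ h0]
    · show a 1 = a 0 / s 0 * s 1
      rw [div_mul_eq_mul_div, eq_div_iff h0]
      linear_combination h

theorem lift_ne {X : Man 6} {p : X.carrier → PP 2} {x₀ : X.carrier} {s : X.carrier → V 2}
    (h : IsLift p x₀ s) : s x₀ ≠ 0 := by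
  obtain ⟨h0, -⟩ := h.2.self_of_nhds
  exact h0

/-- the restricted forms are compatible with the complex structure -/
theorem compatible {T : Threefold} {h : Fin 4 → ℕ} (hh : Pos h) {w : T.Sf} (hw : IsRestr T h w) :
    Compatible T.J w := by
  refine ⟨T.hol.1, fun x u v => ?_, fun x v hv => ?_⟩
  · obtain ⟨s, hs, -⟩ := T.emb.1.2 x
    rw [hw x s hs, hw x s hs]
    refine Finset.sum_congr rfl fun j _ => ?_
    obtain ⟨c, hc⟩ := T.hol.2 x j (s j) (hs j) u
    obtain ⟨d, hd⟩ := T.hol.2 x j (s j) (hs j) v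
    rw [FS, FS, hc, hd, fs_algebra]
  · obtain ⟨s, hs, hi⟩ := T.emb.1.2 x
    obtain ⟨j, hj⟩ := hi v hv
    rw [hw x s hs]
    have hpi := Real.pi_pos
    have hterm : ∀ i, h i * FS (s i) x v (app T.J x v) =
        h i * (Complex.normSq (det2 (s i x) (der (s i) x v)) / nsq (s i x) ^ 2 / Real.pi) := by
      intro i
      obtain ⟨c, hc⟩ := T.hol.2 x i (s i) (hs i) v
      rw [FS, hc, fs_im]
    rw [Finset.sum_congr rfl fun i _ => hterm i]
    refine Finset.sum_pos' (fun i _ => ?_) ⟨j, Finset.mem_univ j, ?_⟩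
    · have := Complex.normSq_nonneg (det2 (s i x) (der (s i) x v))
      positivity
    · have h1 : 0 < Complex.normSq (det2 (s j x) (der (s j) x v)) :=
        Complex.normSq_pos.2 (det2_ne _ _ (lift_ne (hs j)) hj)
      have h2 : 0 < nsq (s j x) := nsq_pos (lift_ne (hs j))
      have h3 : (0 : ℝ) < h j := by exact_mod_cast hh j
      positivity

end Forms

/-- For every `N` there are `N` integral symplectic forms on `T`, compatible with the complex
structure, whose Donaldson hypersurfaces of every large degree `k` are pairwise homeomorphic and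
pairwise not diffeomorphic. -/
theorem many (P : Published hyp) (T : Threefold) (N : ℕ) : ∃ w : Fin N → T.Sf,
    (∀ i, Compatible T.J (w i)) ∧ ∃ K, ∀ k, K ≤ k → Differ hyp T w k := by
  obtain ⟨m, H, hinj, hodd, hpos, h⟩ := exists_family4 N
  choose w hw using fun i => P.forms T (H i) (hpos i)
  choose K hK using fun i => P.hypersurfaces T (H i) (hpos i) (w i) (hw i)
  refine ⟨w, fun i => compatible (hpos i) (hw i), 1 + Finset.univ.sup K, fun k hk Y hY i j => ?_⟩
  have hk1 : 0 < k := by omega
  have hkK : ∀ i, K i ≤ k := fun i => by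
    have := Finset.le_sup (f := K) (Finset.mem_univ i)
    omega
  have hci : ∀ i, IsSurf (Y i) (k • H i) := fun i => hK i k (hkK i) (Y i) (hY i)
  have hp : ∀ i, Pos (k • H i) := fun i j => Nat.mul_pos hk1 (hpos i j)
  refine ⟨P.freedman _ _ _ _ (hp i) (hp j) (hci i) (hci j) ((h k).2 i j).1 ((h k).2 i j).2 ?_,
    fun hd => ?_⟩
  · rw [(h k).1, (h k).1, Nat.even_mul, Nat.even_mul]
    have h1 := Nat.not_even_iff_odd.2 (hodd i)
    have h2 := Nat.not_even_iff_odd.2 (hodd j)
    tauto
  · have he := content_eq P (hp i) (hp j) (hci i) (hci j) hd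
    rw [(h k).1, (h k).1] at he
    exact hinj (Nat.eq_of_mul_eq_mul_left hk1 he)

theorem Diffeo.homeo {Y Z : Man 4} (h : Diffeo Y Z) : Homeo Y Z := by
  obtain ⟨φ⟩ := h
  exact ⟨φ.toHomeomorph⟩

theorem missed (P : Published hyp) (T : Threefold) (N : ℕ) (F : Set (Man 4)) (hF : AtMost N F) :
    ∃ w : T.Sf, Compatible T.J w ∧ Missed hyp w.toSym6 F := by
  obtain ⟨w, hc, K, h⟩ := many P T (N + 1)
  by_contra hcon
  simp only [Missed] at hcon
  push Not at hcon
  choose L hL using fun i => hcon (w i) (hc i)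
  have hk : ∀ i, L i ≤ K + Finset.univ.sup fun i => L i := fun i => by
    have := Finset.le_sup (f := fun i => L i) (Finset.mem_univ i)
    omega
  choose Y hY Z hZ hYZ using fun i => hL i _ (hk i)
  have h1 := h _ (Nat.le_add_right K _) Y hY
  obtain ⟨i, j, hij, hd⟩ := hF Z hZ (fun i j => by
    obtain ⟨e1⟩ := Diffeo.homeo (hYZ i)
    obtain ⟨e2⟩ := (h1 i j).1
    obtain ⟨e3⟩ := Diffeo.homeo (hYZ j)
    exact ⟨(e1.symm.trans e2).trans e3⟩)
  apply hij
  apply (h1 i j).2
  obtain ⟨e1⟩ := hYZ i
  obtain ⟨e2⟩ := hd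
  obtain ⟨e3⟩ := hYZ j
  exact ⟨(e1.trans e2).trans e3.symm⟩

theorem result (N : ℕ) :
    (∃ (m : Fin N → ℕ) (H : Fin N → Fin 4 → ℕ),
      Function.Injective m ∧ (∀ i, Odd (m i)) ∧ (∀ i, Pos (H i)) ∧ Coincide m H) ∧
    ∀ hyp : Hyp, Published hyp → Nonempty Threefold ∧ ∀ T : Threefold,
      (∃ w : Fin N → T.Sf, (∀ i, Compatible T.J (w i)) ∧ ∃ K, ∀ k, K ≤ k → Differ hyp T w k) ∧
      ∀ F : Set (Man 4), AtMost N F → ∃ w : T.Sf, Compatible T.J w ∧ Missed hyp w.toSym6 F :=
  ⟨exists_family4 N, fun _ P => ⟨P.threefold, fun T => ⟨many P T N, missed P T N⟩⟩⟩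

end Pool.Agent.Results.MP_671ba1_gt.OneManifold
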