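import Pool.Agent.Work.MP_671ba1_h15.Defs

/-!
# MP_671ba1_gt: the negated form of Q1, relative to published theorems

The objects are the real ones (`Pool.Agent.Work.MP_671ba1_h15.Defs`).  `hyp M k` is the set of the
Donaldson hypersurfaces of degree `k` of the symplectic manifold `M`; the structure `Published` lists
the published theorems which are used.
-/

open CategoryTheory Pool.Agent.Work.MP_671ba1_h57 Pool.Agent.Work.MP_671ba1_h15
open scoped Manifold ContDiff

namespace Pool.Agent.Results.MP_671ba1_gt.StabilizationFails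

/-- The published theorems which are used.  `hyp M k` stands for the set of the Donaldson
hypersurfaces of `M` of degree `k`. -/
structure Published (hyp : Sym6 → ℕ → Set (Man 4)) where
  /-- Bertini, Lefschetz: smooth complete intersection threefolds of every multidegree exist and are
  simply connected. -/
  threefolds : ∀ (a : ℕ) (d : List ℕ), 0 < a → (∀ t ∈ d, 2 ≤ t) → ∃ M : Sym6, IsCI3 M a d
  /-- Donaldson 1996, Auroux 1997: for large `k` the Donaldson hypersurfaces of a projective threefold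
  are diffeomorphic to the smooth members of the linear system. -/
  hypersurfaces : ∀ (M : Sym6) (a : ℕ) (d : List ℕ), 0 < a → IsCI3 M a d →
    ∃ K, ∀ k, K ≤ k → ∀ Y ∈ hyp M k, IsCI Y (a * k :: d)
  /-- Freedman 1982, and the computation of the intersection forms: complete intersection surfaces
  with even canonical class and the same Chern numbers are homeomorphic. -/
  freedman : ∀ (X Y : Man 4) (D E : List ℕ), IsCI X D → IsCI Y E → EvenForm D → EvenForm E →
    c1sq D = c1sq E → c2 D = c2 E → Homeo X Y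
  /-- the set of the Seiberg-Witten basic classes, for the orientation of negative signature (complete
  intersection surfaces with positive canonical class have negative signature and `b⁺ ≥ 3`) -/
  basic : ∀ X : Man 4, Set (Coh X)
  /-- Seiberg-Witten 1994: diffeomorphisms preserve the basic classes. -/
  basic_natural : ∀ (X Y : Man 4) (φ : Dif X Y) (c : Coh Y), c ∈ basic Y → pull φ c ∈ basic X
  /-- Witten 1994, Lefschetz: if the canonical class is `r x`, `x` the hyperplane class, `r > 0` (and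
  even), then the basic classes are `± r x`, and `x : H_2(X) → ℤ` is onto. -/
  basic_ci : ∀ (X : Man 4) (D : List ℕ), IsCI X D → EvenForm D → 0 < canon D →
    ∃ (r : ℤ) (x : Coh X), (r : ℚ) = canon D ∧ Function.Surjective x ∧
      basic X = {r • x, -(r • x)}

variable {hyp : Sym6 → ℕ → Set (Man 4)}

/-- one half of the invariance of the divisibility -/
theorem dvd_of_diffeo (P : Published hyp) {X Y : Man 4} {r s : ℤ} {x : Coh X} {y : Coh Y}
    (hx : Function.Surjective x) (hX : P.basic X = {r • x, -(r • x)})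
    (hY : P.basic Y = {s • y, -(s • y)}) (φ : Dif X Y) : s ∣ r := by
  obtain ⟨h, hh⟩ := hx 1
  have h1 := P.basic_natural X Y φ (s • y) (by rw [hY]; exact Set.mem_insert _ _)
  rw [hX, Set.mem_insert_iff, Set.mem_singleton_iff] at h1
  rcases h1 with h1 | h1
  · have h2 := LinearMap.congr_fun h1 h
    simp only [pull, LinearMap.comp_apply, LinearMap.smul_apply, smul_eq_mul, hh, mul_one] at h2
    exact ⟨_, h2.symm⟩
  · have h2 := LinearMap.congr_fun h1 h
    simp only [pull, LinearMap.comp_apply, LinearMap.smul_apply, LinearMap.neg_apply, smul_eq_mul, hh,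
      mul_one] at h2
    exact (dvd_neg.1 ⟨_, h2.symm⟩)

/-- the canonical coefficient is a diffeomorphism invariant of complete intersection surfaces -/
theorem canon_eq (P : Published hyp) {X Y : Man 4} {D E : List ℕ} (hX : IsCI X D) (hY : IsCI Y E)
    (hXe : EvenForm D) (hYe : EvenForm E) (hD : 0 < canon D) (hE : 0 < canon E) (h : Diffeo X Y) :
    canon D = canon E := by
  obtain ⟨φ⟩ := h
  obtain ⟨r, x, hr, hx, hbx⟩ := P.basic_ci X D hX hXe hD
  obtain ⟨s, y, hs, hy, hby⟩ := P.basic_ci Y E hY hYe hE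
  have h1 : s ∣ r := dvd_of_diffeo P hx hbx hby φ
  have h2 : r ∣ s := dvd_of_diffeo P hy hby hbx φ.symm
  have hr0 : 0 < r := by
    rw [← hr] at hD
    exact_mod_cast hD
  have hs0 : 0 < s := by
    rw [← hs] at hE
    exact_mod_cast hE
  have h3 : r = s := Int.dvd_antisymm hr0.le hs0.le h2 h1
  rw [← hr, ← hs, h3]

/-- For every `N` there are `N` integral symplectic 6-manifolds whose Donaldson hypersurfaces of
every large degree `k` are pairwise homeomorphic and pairwise not diffeomorphic. -/
theorem many (P : Published hyp) (N : ℕ) : ∃ (M : Fin N → Sym6) (K : ℕ), ∀ k, K ≤ k →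
    ∀ Y : Fin N → Man 4, (∀ i, Y i ∈ hyp (M i) k) →
      ∀ i j, Homeo (Y i) (Y j) ∧ (Diffeo (Y i) (Y j) → i = j) := by
  obtain ⟨α, c, a, d, hinj, hpos, heven, hge, h⟩ := exists_family N
  choose M hM using fun i => P.threefolds (a i) (d i) (hpos i) (hge i)
  choose K hK using fun i => P.hypersurfaces (M i) (a i) (d i) (hpos i) (hM i)
  refine ⟨M, 1 + Finset.univ.sup K, fun k hk Y hY i j => ?_⟩
  have hk1 : 1 ≤ k := by omega
  have hkK : ∀ i, K i ≤ k := fun i => by
    have := Finset.le_sup (f := K) (Finset.mem_univ i)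
    omega
  have hci : ∀ i, IsCI (Y i) (a i * k :: d i) := fun i => hK i k (hkK i) (Y i) (hY i)
  have hev : ∀ i, EvenForm (a i * k :: d i) := by
    intro i
    obtain ⟨b, hb⟩ := heven i
    refine ⟨b * (α + k), ?_⟩
    rw [(h i k).1, hb]
    push_cast
    ring
  have hpc : ∀ i, 0 < canon (a i * k :: d i) := by
    intro i
    rw [(h i k).1]
    have h1 : (0 : ℚ) < a i := by exact_mod_cast hpos i
    have h2 : (1 : ℚ) ≤ k := by exact_mod_cast hk1
    have h3 : (0 : ℚ) ≤ α := by positivity
    positivity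
  refine ⟨P.freedman _ _ _ _ (hci i) (hci j) (hev i) (hev j) ?_ ?_, fun hd => ?_⟩
  · rw [(h i k).2.1, (h j k).2.1]
  · rw [(h i k).2.2, (h j k).2.2]
  · have he := canon_eq P (hci i) (hci j) (hev i) (hev j) (hpc i) (hpc j) hd
    rw [(h i k).1, (h j k).1] at he
    have h2 : (0 : ℚ) < α + k := by
      have : (1 : ℚ) ≤ k := by exact_mod_cast hk1
      positivity
    have h3 : (a i : ℚ) = a j := mul_right_cancel₀ h2.ne' he
    exact hinj (by exact_mod_cast h3)

theorem Diffeo.homeo {X Y : Man 4} (h : Diffeo X Y) : Homeo X Y := by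
  obtain ⟨φ⟩ := h
  exact ⟨φ.toHomeomorph⟩

theorem result (hyp : Sym6 → ℕ → Set (Man 4)) (P : Published hyp) (N : ℕ) :
    (∃ (M : Fin N → Sym6) (K : ℕ), ∀ k, K ≤ k → ∀ Y : Fin N → Man 4, (∀ i, Y i ∈ hyp (M i) k) →
      ∀ i j, Homeo (Y i) (Y j) ∧ (Diffeo (Y i) (Y j) → i = j)) ∧
    ∀ F : Set (Man 4),
      (∀ G : Fin (N + 1) → Man 4, (∀ i, G i ∈ F) → (∀ i j, Homeo (G i) (G j)) →
        ∃ i j, i ≠ j ∧ Diffeo (G i) (G j)) →
      ∃ M : Sym6, ∀ K, ∃ k, K ≤ k ∧ ∀ Y ∈ hyp M k, ∀ Z ∈ F, ¬ Diffeo Y Z := by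
  refine ⟨many P N, fun F hF => ?_⟩
  obtain ⟨M, K, h⟩ := many P (N + 1)
  by_contra hcon
  push Not at hcon
  choose L hL using hcon
  have hk : ∀ i, L (M i) ≤ K + Finset.univ.sup fun i => L (M i) := fun i => by
    have := Finset.le_sup (f := fun i => L (M i)) (Finset.mem_univ i)
    omega
  choose Y hY Z hZ hYZ using fun i => hL (M i) _ (hk i)
  have h1 := h _ (Nat.le_add_right K _) Y hY
  obtain ⟨i, j, hij, hd⟩ := hF Z hZ (fun i j => by
    obtain ⟨e1⟩ := Diffeo.homeo (hYZ i)
    obtain ⟨e2⟩ := (h1 i j).1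
    obtain ⟨e3⟩ := Diffeo.homeo (hYZ j)
    exact ⟨(e1.symm.trans e2).trans e3⟩)
  apply hij
  apply (h1 i j).2
  obtain ⟨e1⟩ := hYZ i
  obtain ⟨e2⟩ := hd
  obtain ⟨e3⟩ := hYZ j
  exact ⟨(e1.trans e2).trans e3.symm⟩

end Pool.Agent.Results.MP_671ba1_gt.StabilizationFails
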